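import Pool.Agent.Results.MP_a70c31_an.UpperBound06125

/-!
`MP_4255df_an`: the Clunie-Hayman constant `β` is at most `49/80 = 0.6125` (starting file of this
problem: `0.627`).  The proof is the one of `MP_a70c31_an`, which poses the same constant.
-/

open Filter Topology

namespace Pool.Agent.Results.MP_4255df_an.UpperBound06125

/-- For every transcendental entire function `f` one has `β_f ≤ 49/80 = 0.6125`. -/
theorem result (f : ℂ → ℂ) (hf : Differentiable ℂ f)
    (hp : ¬ ∃ p : Polynomial ℂ, ∀ z, f z = p.eval z) :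
    liminf (fun r : ℝ =>
      (⨆ n : ℕ, ‖iteratedDeriv n f 0 / (n.factorial : ℂ)‖ * r ^ n) /
        sSup ((fun z => ‖f z‖) '' Metric.sphere (0 : ℂ) r)) atTop ≤ 49 / 80 :=
  Pool.Agent.Results.MP_a70c31_an.UpperBound06125.result f hf hp

end Pool.Agent.Results.MP_4255df_an.UpperBound06125
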